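import Mathlib
import Pool.Agent.V1166.WI.Any
import Pool.Agent.Results.MP_16912e_nt.QuadraticShortIntervals

/-!
# The average torsion of the class groups of quadratic fields in windows of ANY length

Let `v n ≥ 1` be a sequence with `∑ (v n) ^ (-ε) < ∞` for all `ε > 0`, for instance `v n = 2 ^ n` or
`n!`. For almost every real `α`, for all `l`, `r ≥ 1` with `7 r ≤ 2 l`, all `ε > 0`, all large `n` and
ALL `1 ≤ H ≤ v n`, the sum of the `r`-th powers of the numbers of elements of order dividing `l` of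
the class groups of the quadratic fields with discriminants in the window `|D - α v n| ≤ H` is at most
`H * (v n) ^ (r / 2 - 3 r / (2 (l + r)) + ε)`, so the mean value over a window of any length satisfies
the bound that is known for the mean value over all discriminants up to `v n`.
-/

set_option autoImplicit false

namespace Pool.Agent.Results.MP_16912e_nt.AveragesInWindows

open MeasureTheory Filter Finset NumberField

/-- the number `m` is the order of the `l`-torsion of the class group of a quadratic field of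
discriminant `D` -/
def Q (l : ℕ) (D : ℤ) (m : ℕ) : Prop :=
  ∃ (K : Type) (_ : Field K) (_ : NumberField K), Module.finrank ℚ K = 2 ∧
    NumberField.discr K = D ∧ Nat.card {c : ClassGroup (𝓞 K) // c ^ l = 1} = m

lemma bdd (l : ℕ) (hl : 7 ≤ 2 * l) (D : ℤ) : BddAbove {m | Q l D m} := by
  obtain ⟨C, hC, -, h2⟩ := Pool.Agent.Results.MP_16912e_nt.QuadraticShortIntervals.result l 1
    (by omega) le_rfl 1 one_pos
  refine ⟨⌈C * (|(D : ℝ)| + 1) ^ (1 + ((1 : ℕ) : ℝ) / 2 -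
    3 * ((1 : ℕ) : ℝ) / (2 * ((l : ℝ) + ((1 : ℕ) : ℝ))) + 1)⌉₊, fun m hm => ?_⟩
  obtain ⟨K, i1, i2, h3, h4, h5⟩ := hm
  have h6 := h2 (by omega) (|(D : ℝ)| + 1) (by linarith [abs_nonneg (D : ℝ)]) {D} (fun _ => K)
    (fun D' hD' => by
      rw [mem_singleton] at hD'
      subst hD'
      exact ⟨by linarith, h3, h4⟩)
  rw [sum_singleton, h5, pow_one] at h6
  exact_mod_cast h6.trans (Nat.le_ceil _)

/-- the maximal order, `0` if there is no quadratic field of discriminant `D` -/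
noncomputable def M (l : ℕ) (D : ℤ) : ℕ := sSup {m | Q l D m}

lemma le_M {l : ℕ} (hl : 7 ≤ 2 * l) {D : ℤ} {m : ℕ} (h : Q l D m) : m ≤ M l D :=
  le_csSup (bdd l hl D) h

lemma mem_M {l : ℕ} (hl : 7 ≤ 2 * l) {D : ℤ} (h : M l D ≠ 0) : Q l D (M l D) := by
  have hne : {m | Q l D m}.Nonempty := by
    by_contra hcon
    rw [Set.not_nonempty_iff_eq_empty] at hcon
    refine h ?_
    unfold M
    rw [hcon, csSup_empty, bot_eq_zero]
  exact Nat.sSup_mem hne (bdd l hl D)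

lemma family {l : ℕ} (hl : 7 ≤ 2 * l) : ∃ (K : ℤ → Type) (_ : ∀ D, Field (K D))
    (_ : ∀ D, NumberField (K D)), ∀ D, M l D ≠ 0 → Module.finrank ℚ (K D) = 2 ∧
      NumberField.discr (K D) = D ∧ Nat.card {c : ClassGroup (𝓞 (K D)) // c ^ l = 1} = M l D := by
  have h : ∀ D : ℤ, ∃ (K : Type) (_ : Field K) (_ : NumberField K), M l D ≠ 0 →
      Module.finrank ℚ K = 2 ∧ NumberField.discr K = D ∧
        Nat.card {c : ClassGroup (𝓞 K) // c ^ l = 1} = M l D := by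
    intro D
    by_cases h0 : M l D = 0
    · exact ⟨ℚ, inferInstance, inferInstance, fun h => absurd h0 h⟩
    · obtain ⟨K, i1, i2, h1⟩ := mem_M hl h0
      exact ⟨K, i1, i2, fun _ => h1⟩
  choose K i1 i2 h1 using h
  exact ⟨K, i1, i2, h1⟩

lemma total (l r : ℕ) (hr : 1 ≤ r) (hlr : 7 * r ≤ 2 * l) (ε : ℝ) (hε : 0 < ε) :
    ∃ C : ℝ, 0 < C ∧ ∀ N : ℕ, 1 ≤ N → ∑ D ∈ Icc (-(N : ℤ)) N, (M l D : ℝ) ^ r ≤
      C * (N : ℝ) ^ (1 + ((r : ℝ) / 2 - 3 * (r : ℝ) / (2 * ((l : ℝ) + r))) + ε) := by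
  classical
  obtain ⟨C, hC, -, h2⟩ := Pool.Agent.Results.MP_16912e_nt.QuadraticShortIntervals.result l r
    (by omega) hr ε hε
  refine ⟨C, hC, fun N hN => ?_⟩
  obtain ⟨K, i1, i2, hK⟩ := family (l := l) (by omega)
  have h3 := h2 hlr N (by exact_mod_cast hN) ((Icc (-(N : ℤ)) N).filter (fun D => M l D ≠ 0)) K
    (fun D hD => by
      obtain ⟨g1, g2⟩ := mem_filter.1 hD
      obtain ⟨g3, g4, -⟩ := hK D g2
      refine ⟨?_, g3, g4⟩
      rw [mem_Icc] at g1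
      rw [abs_le]
      constructor
      · exact_mod_cast g1.1
      · exact_mod_cast g1.2)
  have h4 : ∑ D ∈ Icc (-(N : ℤ)) N, (M l D : ℝ) ^ r =
      ∑ D ∈ (Icc (-(N : ℤ)) N).filter (fun D => M l D ≠ 0),
        (Nat.card {c : ClassGroup (𝓞 (K D)) // c ^ l = 1} : ℝ) ^ r := by
    rw [sum_filter]
    refine sum_congr rfl fun D _ => ?_
    by_cases h0 : M l D = 0
    · rw [if_neg (not_not.2 h0), h0, Nat.cast_zero, zero_pow (by omega)]
    · rw [if_pos h0, (hK D h0).2.2]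
  rw [h4, show (1 : ℝ) + ((r : ℝ) / 2 - 3 * (r : ℝ) / (2 * ((l : ℝ) + r))) + ε =
    1 + (r : ℝ) / 2 - 3 * (r : ℝ) / (2 * ((l : ℝ) + r)) + ε by ring]
  exact h3

/-- **Theorem.** Let `v n ≥ 1` be a sequence with `∑ (v n) ^ (-ε) < ∞` for all `ε > 0`. For almost all
real `α`, for all `r ≥ 1`, `7 r ≤ 2 l` and `ε > 0` and all large `n`, for ALL `1 ≤ H ≤ v n` the sum of
`#Cl(K)[l] ^ r` over quadratic fields `K` with different discriminants `D`, `|D - α v n| ≤ H`, is at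
most `H * (v n) ^ (r / 2 - 3 r / (2 (l + r)) + ε)`. -/
theorem result (v : ℕ → ℝ) (hv1 : ∀ n, 1 ≤ v n)
    (hv : ∀ ε : ℝ, 0 < ε → Summable fun n => (v n) ^ (-ε)) :
    ∀ᵐ α : ℝ, ∀ l r : ℕ, 1 ≤ r → 7 * r ≤ 2 * l → ∀ ε : ℝ, 0 < ε → ∀ᶠ n : ℕ in atTop,
      ∀ H : ℝ, 1 ≤ H → H ≤ v n →
        ∀ (S : Finset ℤ) (K : ℤ → Type) [∀ D, Field (K D)] [∀ D, NumberField (K D)],
        (∀ D ∈ S, |(D : ℝ) - α * v n| ≤ H ∧ Module.finrank ℚ (K D) = 2 ∧
          NumberField.discr (K D) = D) →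
        ∑ D ∈ S, (Nat.card {c : ClassGroup (𝓞 (K D)) // c ^ l = 1} : ℝ) ^ r ≤
          H * (v n) ^ ((r : ℝ) / 2 - 3 * (r : ℝ) / (2 * ((l : ℝ) + r)) + ε) := by
  have key : ∀ l r : ℕ, ∀ᵐ α : ℝ, 1 ≤ r → 7 * r ≤ 2 * l → ∀ ε : ℝ, 0 < ε → ∀ᶠ n : ℕ in atTop,
      ∀ H : ℝ, 1 ≤ H → H ≤ v n → ∀ S : Finset ℤ, (∀ D ∈ S, |(D : ℝ) - α * v n| ≤ H) →
        ∑ D ∈ S, (M l D : ℝ) ^ r ≤
          H * (v n) ^ ((r : ℝ) / 2 - 3 * (r : ℝ) / (2 * ((l : ℝ) + r)) + ε) := by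
    intro l r
    by_cases hc : 1 ≤ r ∧ 7 * r ≤ 2 * l
    · obtain ⟨hr, hlr⟩ := hc
      have hE : 0 ≤ (r : ℝ) / 2 - 3 * (r : ℝ) / (2 * ((l : ℝ) + r)) := by
        have h1 : (3 : ℝ) ≤ (l : ℝ) + r := by exact_mod_cast (by omega : 3 ≤ l + r)
        have h2 : 3 * (r : ℝ) / (2 * ((l : ℝ) + r)) ≤ (r : ℝ) / 2 := by
          rw [div_le_div_iff₀ (by positivity) (by norm_num)]
          nlinarith [(Nat.cast_nonneg r : (0 : ℝ) ≤ r)]
        linarith
      filter_upwards [Pool.Agent.V1166.WI.windows (w := fun D => (M l D : ℝ) ^ r)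
        (fun D => by positivity) hE (total l r hr hlr) hv1 hv] with α hα _ _
      exact hα
    · exact Eventually.of_forall fun α h1 h2 => absurd ⟨h1, h2⟩ hc
  filter_upwards [ae_all_iff.2 fun l => ae_all_iff.2 fun r => key l r] with α hα l r hr hlr ε hε
  filter_upwards [hα l r hr hlr ε hε] with n hn H hH1 hH S K i1 i2 hS
  refine le_trans (sum_le_sum fun D hD => ?_) (hn H hH1 hH S fun D hD => (hS D hD).1)
  refine pow_le_pow_left₀ (Nat.cast_nonneg _) ?_ r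
  obtain ⟨-, g1, g2⟩ := hS D hD
  exact_mod_cast le_M (by omega) ⟨K D, i1 D, i2 D, g1, g2, rfl⟩

end Pool.Agent.Results.MP_16912e_nt.AveragesInWindows
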