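import Pool.Agent.V146.QT.Large

set_option autoImplicit false

/-!
# How many quadratic fields have large torsion in the class group?

For every integer `l ≥ 1` the number of quadratic fields, real or imaginary, whose class group has at
least `X ^ (1 / 2 + ε) / y` elements killed by `l` is bounded, for all `y > 0`, for all discriminants up
to `X` and for discriminants in short intervals.
-/

namespace Pool.Agent.Results.MP_16912e_nt.LargeTorsion

open NumberField
open scoped Classical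

/-- Let `l ≥ 1` be a natural number and `ε > 0`. There is a constant `C` such that for all `y > 0`:

* for all real `1 ≤ H ≤ X` and all quadratic fields `K_D` (real or imaginary) of discriminant `D`,
  where `D` runs through a finite set `S` with `X ≤ |D| ≤ X + H`, at most
  `C X ^ ε (y √H + y ^ (l + 1) / √X)` of the fields have `|Cl(K_D)[l]| ≥ X ^ (1 / 2 + ε) / y`;
* for all real `X ≥ 1` and all quadratic fields `K_D` with `|D| ≤ X`, at most
  `C X ^ ε (y √X + y ^ (l + 1) / √X)` of the fields have `|Cl(K_D)[l]| ≥ X ^ (1 / 2 + ε) / y`. -/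
theorem result (l : ℕ) (hl : 1 ≤ l) (ε : ℝ) (hε : 0 < ε) : ∃ C : ℝ, 0 < C ∧
    (∀ X H y : ℝ, 1 ≤ H → H ≤ X → 0 < y →
      ∀ (S : Finset ℤ) (K : ℤ → Type) [∀ D, Field (K D)] [∀ D, NumberField (K D)],
      (∀ D ∈ S, (X ≤ |(D : ℝ)| ∧ |(D : ℝ)| ≤ X + H) ∧ Module.finrank ℚ (K D) = 2 ∧
        NumberField.discr (K D) = D) →
      ((S.filter (fun D => X ^ (1 / 2 + ε) / y ≤
        (Nat.card {c : ClassGroup (𝓞 (K D)) // c ^ l = 1} : ℝ))).card : ℝ) ≤
        C * X ^ ε * (y * √H + y ^ (l + 1) / √X)) ∧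
    (∀ X y : ℝ, 1 ≤ X → 0 < y →
      ∀ (S : Finset ℤ) (K : ℤ → Type) [∀ D, Field (K D)] [∀ D, NumberField (K D)],
      (∀ D ∈ S, |(D : ℝ)| ≤ X ∧ Module.finrank ℚ (K D) = 2 ∧ NumberField.discr (K D) = D) →
      ((S.filter (fun D => X ^ (1 / 2 + ε) / y ≤
        (Nat.card {c : ClassGroup (𝓞 (K D)) // c ^ l = 1} : ℝ))).card : ℝ) ≤
        C * X ^ ε * (y * √X + y ^ (l + 1) / √X)) := by
  obtain ⟨C1, hC1, h1⟩ := Pool.Agent.V146.QT.large_short l hl ε hε
  obtain ⟨C2, hC2, h2⟩ := Pool.Agent.V146.QT.large_full l hl ε hε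
  refine ⟨C1 + C2, by positivity, ?_, ?_⟩
  · intro X H y hH hHX hy S K _ _ hS
    refine (h1 X H y hH hHX hy S K hS).trans ?_
    have hX : 0 < X := by linarith
    gcongr
    linarith
  · intro X y hX hy S K _ _ hS
    refine (h2 X y hX hy S K hS).trans ?_
    gcongr
    linarith

end Pool.Agent.Results.MP_16912e_nt.LargeTorsion
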