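import Pool.Agent.V146.QT.LargeThin

set_option autoImplicit false

/-!
# How many fields of a thin family of quadratic fields have large torsion in the class group?

Let `f(t) = a t² + b t + c` be a quadratic polynomial with integer coefficients, `a ≠ 0` and
`b² - 4 a c ≠ 0`. For every integer `l ≥ 1` the number of quadratic fields `K_t` (real or imaginary) of
discriminant `f(t)`, `N ≤ |t| ≤ 2 N`, whose class group has at least `N ^ (1 + ε) / y` elements killed
by `l` is at most `C N ^ ε (1 + y ^ (l + 1) / N)`.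
-/

namespace Pool.Agent.Results.MP_16912e_nt.LargeTorsionThinFamilies

open NumberField
open scoped Classical

/-- Let `f(t) = a t² + b t + c` with integers `a ≠ 0`, `b`, `c` with `b² - 4 a c ≠ 0`, let `l ≥ 1` be a
natural number and `ε > 0`. There is a constant `C` such that for all real `N ≥ 1` and `y > 0` and all
quadratic fields `K_t` (real or imaginary) of discriminant `f(t)`, where `t` runs through a finite set
`S` of integers with `N ≤ |t| ≤ 2 N`, at most `C N ^ ε (1 + y ^ (l + 1) / N)` of the `t` in `S` satisfy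
`|Cl(K_t)[l]| ≥ N ^ (1 + ε) / y`. -/
theorem result (a b c : ℤ) (ha : a ≠ 0) (hdisc : b ^ 2 - 4 * a * c ≠ 0) (l : ℕ) (hl : 1 ≤ l)
    (ε : ℝ) (hε : 0 < ε) : ∃ C : ℝ, 0 < C ∧ ∀ N y : ℝ, 1 ≤ N → 0 < y →
      ∀ (S : Finset ℤ) (K : ℤ → Type) [∀ t, Field (K t)] [∀ t, NumberField (K t)],
      (∀ t ∈ S, (N ≤ |(t : ℝ)| ∧ |(t : ℝ)| ≤ 2 * N) ∧ Module.finrank ℚ (K t) = 2 ∧
        NumberField.discr (K t) = a * t ^ 2 + b * t + c) →
      ((S.filter (fun t => N ^ (1 + ε) / y ≤
        (Nat.card {x : ClassGroup (𝓞 (K t)) // x ^ l = 1} : ℝ))).card : ℝ) ≤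
        C * N ^ ε * (1 + y ^ (l + 1) / N) :=
  Pool.Agent.V146.QT.large_thin a b c ha hdisc l hl ε hε

end Pool.Agent.Results.MP_16912e_nt.LargeTorsionThinFamilies
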