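import Pool.Agent.Results.MP_16912e_nt.ThinQuadraticFamilies
import Pool.Agent.V35.WP

/-!
# `l`-torsion in the class groups of ALL quadratic fields of discriminant `a t² + b t + c` with `t` near almost every point

Let `a ≠ 0`, `b² - 4 a c ≠ 0`. The starting theorem `ThinQuadraticFamilies` bounds the moments of order `r ≤ l / 5` of
`|Cl(K_t)[l]|` over the quadratic fields `K_t` of discriminant `a t² + b t + c`, `|t| ≤ T`, with the saving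
`T ^ (2 r / (l + r))` against the trivial bound `|t|` for the class number; it gives no bound for a given `t`. Here: for
almost all real `α` the bound `|Cl(K_t)[l]| ≤ |t| ^ (1 - κ)` holds for ALL integers `t` at distance at most `v_k ^ θ` from
`v_k α`, `k` large, and all `a, b, c` (one exceptional set), if `θ + τ < r (2 / (l + r) - κ)`.
-/

set_option autoImplicit false

open NumberField MeasureTheory

namespace Pool.Agent.Results.MP_16912e_nt.ThinFamiliesInWindows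

open Pool.Agent.V35.WM Pool.Agent.V35.WP

/-- `t` is an integer such that for some quadratic field `K` of discriminant `a t² + b t + c` the class group of `K` has
more than `|t| ^ (1 - κ)` elements `x` with `x ^ l = 1`. -/
def Large (q : ℤ × ℤ × ℤ) (l : ℕ) (κ : ℝ) : Set ℤ :=
  {t | ∃ (K : Type) (_ : Field K) (_ : NumberField K), Module.finrank ℚ K = 2 ∧
    NumberField.discr K = q.1 * t ^ 2 + q.2.1 * t + q.2.2 ∧
    |(t : ℝ)| ^ (1 - κ) < (Nat.card {x : ClassGroup (𝓞 K) // x ^ l = 1} : ℝ)}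

/-- a number field -/
structure NF where
  K : Type
  i1 : Field K
  i2 : NumberField K

/-- the saving in the mean value theorem -/
noncomputable def sav (l r : ℕ) (κ : ℝ) : ℝ := r * (2 / ((l : ℝ) + r) - κ)

lemma finite_abs (H : ℕ) : {t : ℤ | |t| ≤ (H : ℤ)}.Finite :=
  (Finset.finite_toSet (Finset.Icc (-(H : ℤ)) H)).subset fun t ht => by
    rw [Finset.mem_coe, Finset.mem_Icc]
    exact abs_le.1 ht

/-- the number of the large `t` with `H / 2 < |t| ≤ H` -/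
lemma upper_half (q : ℤ × ℤ × ℤ) (ha : q.1 ≠ 0) (hdisc : q.2.1 ^ 2 - 4 * q.1 * q.2.2 ≠ 0) (l r : ℕ) (hr : 1 ≤ r)
    (hlr : 5 * r ≤ l) (κ : ℝ) (hκ1 : κ ≤ 1) (ε : ℝ) (hε : 0 < ε) : ∃ B : ℝ, 0 ≤ B ∧ ∀ H : ℕ, 1 ≤ H →
      ({t : ℤ | t ∈ Large q l κ ∧ (H : ℝ) / 2 ≤ |(t : ℝ)| ∧ |t| ≤ (H : ℤ)}.ncard : ℝ) ≤
        B * (H : ℝ) ^ (1 - sav l r κ + ε) := by
  obtain ⟨C, hC0, -, hC⟩ := ThinQuadraticFamilies.result q.1 q.2.1 q.2.2 ha hdisc l r (by omega) hr ε hε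
  have hp : 0 ≤ (1 - κ) * r := mul_nonneg (by linarith) (Nat.cast_nonneg _)
  obtain ⟨p, hpd⟩ : ∃ p, p = (1 - κ) * r := ⟨_, rfl⟩
  rw [← hpd] at hp
  refine ⟨C * 2 ^ p, by positivity, fun H hH => ?_⟩
  have hH0 : (0 : ℝ) < H := by exact_mod_cast hH
  set S : Set ℤ := {t : ℤ | t ∈ Large q l κ ∧ (H : ℝ) / 2 ≤ |(t : ℝ)| ∧ |t| ≤ (H : ℤ)} with hS
  have hfin : S.Finite := (finite_abs H).subset fun t ht => ht.2.2
  have hex : ∀ t : ℤ, ∃ F : NF, t ∈ S →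
      (letI := F.i1; letI := F.i2
       Module.finrank ℚ F.K = 2 ∧ NumberField.discr F.K = q.1 * t ^ 2 + q.2.1 * t + q.2.2 ∧
        |(t : ℝ)| ^ (1 - κ) < (Nat.card {x : ClassGroup (𝓞 F.K) // x ^ l = 1} : ℝ)) := by
    intro t
    by_cases ht : t ∈ S
    · obtain ⟨K, i1, i2, h⟩ := ht.1
      exact ⟨⟨K, i1, i2⟩, fun _ => h⟩
    · exact ⟨⟨ℚ, inferInstance, inferInstance⟩, fun h => absurd h ht⟩
  choose F hF using hex
  have h1 := @hC hlr (H : ℝ) (by exact_mod_cast hH) hfin.toFinset (fun t => (F t).K) (fun t => (F t).i1)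
    (fun t => (F t).i2)
    (fun t ht => by
      have ht' : t ∈ S := hfin.mem_toFinset.1 ht
      obtain ⟨h2, h3, -⟩ := hF t ht'
      refine ⟨?_, h2, h3⟩
      have h4 : ((|t| : ℤ) : ℝ) ≤ ((H : ℤ) : ℝ) := by exact_mod_cast ht'.2.2
      push_cast at h4
      exact h4)
  have h2 : (S.ncard : ℝ) * ((H : ℝ) / 2) ^ p ≤
      C * (H : ℝ) ^ (1 + (r : ℝ) - 2 * (r : ℝ) / ((l : ℝ) + r) + ε) := by
    refine le_trans ?_ h1
    rw [Set.ncard_eq_toFinset_card _ hfin, ← nsmul_eq_mul, ← Finset.sum_const]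
    refine Finset.sum_le_sum fun t ht => ?_
    have ht' : t ∈ S := hfin.mem_toFinset.1 ht
    have h5 := (hF t ht').2.2
    have h6 : ((H : ℝ) / 2) ^ p = (((H : ℝ) / 2) ^ (1 - κ)) ^ r := by
      rw [hpd, Real.rpow_mul (by positivity), Real.rpow_natCast]
    rw [h6]
    refine pow_le_pow_left₀ (by positivity) (le_trans ?_ h5.le) r
    exact Real.rpow_le_rpow (by positivity) ht'.2.1 (by linarith)
  have h3 : 0 < ((H : ℝ) / 2) ^ p := by positivity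
  have h4 : (S.ncard : ℝ) ≤ C * (H : ℝ) ^ (1 + (r : ℝ) - 2 * (r : ℝ) / ((l : ℝ) + r) + ε) / ((H : ℝ) / 2) ^ p := by
    rw [le_div_iff₀ h3]
    exact h2
  refine h4.trans ?_
  rw [Real.div_rpow hH0.le two_pos.le]
  have h5 : (H : ℝ) ^ (1 + (r : ℝ) - 2 * (r : ℝ) / ((l : ℝ) + r) + ε) =
      (H : ℝ) ^ (1 - sav l r κ + ε) * (H : ℝ) ^ p := by
    rw [← Real.rpow_add hH0, hpd, sav]
    congr 1
    ring
  have hHp : 0 < (H : ℝ) ^ p := by positivity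
  have h2p : (0 : ℝ) < 2 ^ p := by positivity
  rw [h5]
  have h6 : C * ((H : ℝ) ^ (1 - sav l r κ + ε) * (H : ℝ) ^ p) / ((H : ℝ) ^ p / 2 ^ p) =
      (C * 2 ^ p) * (H : ℝ) ^ (1 - sav l r κ + ε) := by
    field_simp
  rw [h6]

/-- all the large `t` with `|t| ≤ H` -/
lemma count (u : ℤ × ℤ × ℤ) (ha : u.1 ≠ 0) (hdisc : u.2.1 ^ 2 - 4 * u.1 * u.2.2 ≠ 0) (l r : ℕ) (hr : 1 ≤ r)
    (hlr : 5 * r ≤ l) (κ : ℝ) (hκ1 : κ ≤ 1) (hsav : sav l r κ ≤ 1 / 3) (ε : ℝ) (hε : 0 < ε) :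
    ∃ A : ℝ, ∀ H : ℕ, 1 ≤ H →
      ({t : ℤ | t ∈ Large u l κ ∧ |t| ≤ (H : ℤ)}.ncard : ℝ) ≤ A * (H : ℝ) ^ (1 - sav l r κ + ε) := by
  obtain ⟨B, hB0, hB⟩ := upper_half u ha hdisc l r hr hlr κ hκ1 ε hε
  obtain ⟨q, hq⟩ : ∃ q, q = 1 - sav l r κ + ε := ⟨_, rfl⟩
  rw [← hq] at hB ⊢
  have hq0 : 0 < q := by rw [hq]; linarith
  have h2q : (2 : ℝ) ^ (-q) < 1 := Real.rpow_lt_one_of_one_lt_of_neg (by norm_num) (by linarith)
  have h2q0 : 0 < 1 - (2 : ℝ) ^ (-q) := by linarith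
  set A : ℝ := B / (1 - 2 ^ (-q)) with hA
  have hA0 : 0 ≤ A := by positivity
  have hAB : A * 2 ^ (-q) + B = A := by
    rw [hA]
    field_simp
    ring
  have key : ∀ H : ℕ, ({t : ℤ | t ∈ Large u l κ ∧ |t| ≤ (H : ℤ)}.ncard : ℝ) ≤ A * (H : ℝ) ^ q + 1 := by
    intro H
    induction H using Nat.strong_induction_on with
    | _ H ih =>
      rcases Nat.eq_zero_or_pos H with h0 | hH
      · subst h0
        have hsub : {t : ℤ | t ∈ Large u l κ ∧ |t| ≤ ((0 : ℕ) : ℤ)} ⊆ {0} := by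
          rintro t ⟨-, ht⟩
          have h1 : |t| ≤ 0 := by simpa using ht
          exact abs_nonpos_iff.1 h1
        have h1 := Set.ncard_le_ncard hsub (Set.finite_singleton _)
        rw [Set.ncard_singleton] at h1
        have h2 : (0 : ℝ) ≤ A * ((0 : ℕ) : ℝ) ^ q := by positivity
        have h3 : (({t : ℤ | t ∈ Large u l κ ∧ |t| ≤ ((0 : ℕ) : ℤ)}.ncard : ℕ) : ℝ) ≤ 1 := by exact_mod_cast h1
        linarith
      · have hlt : H / 2 < H := by omega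
        have h1 := ih (H / 2) hlt
        have h2 := hB H hH
        have hH0 : (0 : ℝ) < H := by exact_mod_cast hH
        have hsub : {t : ℤ | t ∈ Large u l κ ∧ |t| ≤ (H : ℤ)} ⊆
            {t : ℤ | t ∈ Large u l κ ∧ |t| ≤ ((H / 2 : ℕ) : ℤ)} ∪
            {t : ℤ | t ∈ Large u l κ ∧ (H : ℝ) / 2 ≤ |(t : ℝ)| ∧ |t| ≤ (H : ℤ)} := by
          rintro t ⟨ht, hle⟩
          by_cases hs : |t| ≤ ((H / 2 : ℕ) : ℤ)
          · exact Or.inl ⟨ht, hs⟩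
          · refine Or.inr ⟨ht, ?_, hle⟩
            push Not at hs
            have h3 : (H : ℤ) ≤ 2 * |t| := by omega
            have h4 : (H : ℝ) ≤ 2 * |(t : ℝ)| := by
              have : ((H : ℤ) : ℝ) ≤ ((2 * |t| : ℤ) : ℝ) := by exact_mod_cast h3
              push_cast at this
              exact this
            linarith
        have h3 := (Set.ncard_le_ncard hsub (((finite_abs (H / 2)).subset fun t ht => ht.2).union
          ((finite_abs H).subset fun t ht => ht.2.2))).trans (Set.ncard_union_le _ _)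
        have h4 : (((H / 2 : ℕ) : ℝ)) ^ q ≤ (H : ℝ) ^ q * 2 ^ (-q) := by
          have h5 : (((H / 2 : ℕ) : ℝ)) ≤ (H : ℝ) / 2 := Nat.cast_div_le
          calc (((H / 2 : ℕ) : ℝ)) ^ q ≤ ((H : ℝ) / 2) ^ q := Real.rpow_le_rpow (Nat.cast_nonneg _) h5 hq0.le
            _ = (H : ℝ) ^ q * 2 ^ (-q) := by
                rw [Real.div_rpow hH0.le two_pos.le, Real.rpow_neg two_pos.le, div_eq_mul_inv]
        calc ({t : ℤ | t ∈ Large u l κ ∧ |t| ≤ (H : ℤ)}.ncard : ℝ)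
            ≤ ({t : ℤ | t ∈ Large u l κ ∧ |t| ≤ ((H / 2 : ℕ) : ℤ)}.ncard : ℝ) +
              ({t : ℤ | t ∈ Large u l κ ∧ (H : ℝ) / 2 ≤ |(t : ℝ)| ∧ |t| ≤ (H : ℤ)}.ncard : ℝ) := by exact_mod_cast h3
          _ ≤ (A * (((H / 2 : ℕ) : ℝ)) ^ q + 1) + B * (H : ℝ) ^ q := add_le_add h1 h2
          _ ≤ (A * ((H : ℝ) ^ q * 2 ^ (-q)) + 1) + B * (H : ℝ) ^ q := by
              have := mul_le_mul_of_nonneg_left h4 hA0
              linarith
          _ = (A * 2 ^ (-q) + B) * (H : ℝ) ^ q + 1 := by ring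
          _ = A * (H : ℝ) ^ q + 1 := by rw [hAB]
  refine ⟨A + 1, fun H hH => (key H).trans ?_⟩
  have hH1 : (1 : ℝ) ≤ H := by exact_mod_cast hH
  have h1 : (1 : ℝ) ≤ (H : ℝ) ^ q := Real.one_le_rpow hH1 hq0.le
  linarith

lemma sav_le (l r : ℕ) (hr : 1 ≤ r) (hlr : 5 * r ≤ l) (κ : ℝ) (hκ0 : 0 ≤ κ) : sav l r κ ≤ 1 / 3 := by
  have h1 : (1 : ℝ) ≤ r := by exact_mod_cast hr
  have h2 : 5 * (r : ℝ) ≤ l := by exact_mod_cast hlr
  have h3 : 0 < (l : ℝ) + r := by linarith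
  have h4 : (r : ℝ) * (2 / ((l : ℝ) + r)) ≤ 1 / 3 := by
    rw [mul_div_assoc', div_le_div_iff₀ h3 (by norm_num)]
    linarith
  rw [sav]
  nlinarith [mul_nonneg (by linarith : (0 : ℝ) ≤ r) hκ0]

/-- **Theorem.** Let `r ≥ 1`, `l ≥ 5 r`, `0 ≤ κ ≤ 1` and `s = r (2 / (l + r) - κ)`. For all sequences `v ≥ 1` of exponent of
convergence at most `τ ≥ 0` and all `θ < 1` there is a set `E` of real numbers of Hausdorff dimension at most
`(1 - s + τ) / (1 - θ)`, and of measure zero if `θ + τ < s`, such that for all `α` outside `E`, all integers `a ≠ 0`, `b`, `c`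
with `b² - 4 a c ≠ 0` and all large `k`: for ALL integers `t` with `|t - v_k α| ≤ (v_k) ^ θ` and all quadratic fields `K` of
discriminant `a t² + b t + c` there are at most `|t| ^ (1 - κ)` elements `x` of the class group of `K` with `x ^ l = 1`. The
exponent of convergence of `b ^ k`, `b > 1`, is at most `0`, that of `(k + 1) ^ A` is at most `1 / A`. -/
theorem result (l r : ℕ) (hr : 1 ≤ r) (hlr : 5 * r ≤ l) (κ : ℝ) (hκ0 : 0 ≤ κ) (hκ1 : κ ≤ 1) :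
    (∀ (v : ℕ → ℝ) (τ θ : ℝ), (∀ k, 1 ≤ v k) → 0 ≤ τ → ExpLe v τ → θ < 1 →
      ∃ E : Set ℝ, dimH E ≤ ENNReal.ofReal ((1 - r * (2 / ((l : ℝ) + r) - κ) + τ) / (1 - θ)) ∧
        (θ + τ < r * (2 / ((l : ℝ) + r) - κ) → volume E = 0) ∧
        ∀ α : ℝ, α ∉ E → ∀ a b c : ℤ, a ≠ 0 → b ^ 2 - 4 * a * c ≠ 0 → ∃ k₀ : ℕ, ∀ k : ℕ, k₀ ≤ k →
          ∀ t : ℤ, |(t : ℝ) - v k * α| ≤ (v k) ^ θ →
            ∀ (K : Type) [Field K] [NumberField K], Module.finrank ℚ K = 2 →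
              NumberField.discr K = a * t ^ 2 + b * t + c →
              (Nat.card {x : ClassGroup (𝓞 K) // x ^ l = 1} : ℝ) ≤ |(t : ℝ)| ^ (1 - κ)) ∧
    (∀ b : ℝ, 1 < b → ExpLe (fun k : ℕ => b ^ k) 0) ∧
    (∀ A : ℝ, 0 < A → ExpLe (fun k : ℕ => ((k : ℝ) + 1) ^ A) (1 / A)) := by
  refine ⟨fun v τ θ hv hτ hE hθ => ?_, fun b hb => expLe_geom b hb, fun A hA => expLe_pow A hA⟩
  have hsav : sav l r κ ≤ 1 / 3 := sav_le l r hr hlr κ hκ0
  have hs : 0 ≤ 1 - sav l r κ := by linarith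
  have hthin : ∀ u : ℤ × ℤ × ℤ, u.1 ≠ 0 → u.2.1 ^ 2 - 4 * u.1 * u.2.2 ≠ 0 →
      Thin (Large u l κ) (fun t : ℤ => (t : ℝ)) (1 - sav l r κ) := by
    intro u ha hdisc ε hε
    obtain ⟨A, hA⟩ := count u ha hdisc l r hr hlr κ hκ1 hsav ε hε
    refine ⟨|A|, fun X hX => ?_⟩
    have hX0 : 0 ≤ X := by linarith
    have hH : 1 ≤ ⌊X⌋₊ := Nat.le_floor (by exact_mod_cast hX)
    have hsub : {t | t ∈ Large u l κ ∧ ‖(t : ℝ)‖ ≤ X} ⊆ {t : ℤ | t ∈ Large u l κ ∧ |t| ≤ ((⌊X⌋₊ : ℕ) : ℤ)} := by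
      rintro t ⟨ht, hle⟩
      refine ⟨ht, ?_⟩
      rw [Real.norm_eq_abs] at hle
      have h4 : ((t.natAbs : ℕ) : ℝ) ≤ X := by
        rw [Nat.cast_natAbs]
        push_cast
        exact hle
      have h5 : t.natAbs ≤ ⌊X⌋₊ := Nat.le_floor h4
      rw [Int.abs_eq_natAbs]
      exact_mod_cast h5
    have hfin : {t : ℤ | t ∈ Large u l κ ∧ |t| ≤ ((⌊X⌋₊ : ℕ) : ℤ)}.Finite :=
      (finite_abs ⌊X⌋₊).subset fun t ht => ht.2
    refine ⟨hfin.subset hsub, ?_⟩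
    have hq0 : 0 ≤ 1 - sav l r κ + ε := by linarith
    calc ({t | t ∈ Large u l κ ∧ ‖(t : ℝ)‖ ≤ X}.ncard : ℝ)
        ≤ ({t : ℤ | t ∈ Large u l κ ∧ |t| ≤ ((⌊X⌋₊ : ℕ) : ℤ)}.ncard : ℝ) := by
          exact_mod_cast Set.ncard_le_ncard hsub hfin
      _ ≤ A * ((⌊X⌋₊ : ℕ) : ℝ) ^ (1 - sav l r κ + ε) := hA _ hH
      _ ≤ |A| * ((⌊X⌋₊ : ℕ) : ℝ) ^ (1 - sav l r κ + ε) :=
          mul_le_mul_of_nonneg_right (le_abs_self A) (by positivity)
      _ ≤ |A| * X ^ (1 - sav l r κ + ε) :=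
          mul_le_mul_of_nonneg_left (Real.rpow_le_rpow (Nat.cast_nonneg _) (Nat.floor_le hX0) hq0) (abs_nonneg A)
  have hdim : ∀ u : {u : ℤ × ℤ × ℤ // u.1 ≠ 0 ∧ u.2.1 ^ 2 - 4 * u.1 * u.2.2 ≠ 0},
      dimH (BadWin (Large u.1 l κ) (fun t : ℤ => (t : ℝ)) v θ) ≤
        ENNReal.ofReal ((1 - sav l r κ + τ) / (1 - θ)) := fun u =>
    dim_badWin hv hτ hE hs hθ (hthin u.1 u.2.1 u.2.2)
  refine ⟨⋃ u : {u : ℤ × ℤ × ℤ // u.1 ≠ 0 ∧ u.2.1 ^ 2 - 4 * u.1 * u.2.2 ≠ 0},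
    BadWin (Large u.1 l κ) (fun t : ℤ => (t : ℝ)) v θ, ?_, fun hlt => ?_, fun α hα a b c ha hdisc => ?_⟩
  · rw [dimH_iUnion]
    exact iSup_le hdim
  · rw [measure_iUnion_null_iff]
    intro u
    refine null_real (hdim u) ?_
    rw [div_lt_one (by linarith)]
    change θ + τ < sav l r κ at hlt
    linarith
  · have hα' : α ∉ BadWin (Large (a, b, c) l κ) (fun t : ℤ => (t : ℝ)) v θ :=
      fun h => hα (Set.mem_iUnion.2 ⟨⟨(a, b, c), ha, hdisc⟩, h⟩)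
    by_contra hcon
    apply hα'
    intro n1
    push Not at hcon
    obtain ⟨k, hk, t, ht, K, i1, i2, h1, h2, h4⟩ := hcon n1
    refine ⟨k, hk, t, ⟨K, i1, i2, h1, h2, h4⟩, ?_⟩
    rw [Real.norm_eq_abs, smul_eq_mul]
    exact ht

end Pool.Agent.Results.MP_16912e_nt.ThinFamiliesInWindows
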